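import Pool.Agent.Y467.NT.Ch

/-!
# Project NT: `S_MLIM` and `S_MNI`
-/

set_option autoImplicit false

open Set Filter Topology Metric
open scoped Manifold

namespace Pool.Agent.Y467.NT

open Pool.Agent.H559.NT

universe u v w

theorem chart_inj {E : Type u} [TopologicalSpace E] {X : Type v} [TopologicalSpace X]
    (c : OpenPartialHomeomorph X E) {p q : X} (hp : p ∈ c.source) (hq : q ∈ c.source)
    (h : c p = c q) : p = q := c.injOn hp hq h

/-- the common chart computation -/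
theorem setup (hE : S_ELIM.{u, u})
    {E : Type u} [NormedAddCommGroup E] [NormedSpace ℂ E] [FiniteDimensional ℂ E]
    {X : Type v} [TopologicalSpace X] [ChartedSpace E X] [IsManifold 𝓘(ℂ, E) 1 X] [T2Space X]
    {l : Filter ℕ} [l.NeBot] {U : Set X} {F : ℕ → X → X} {G : X → X} (hU : IsOpen U)
    (hF : ∀ᶠ m in l, Hol E U (F m)) (hG : Conv l U F G) {x₀ : X} (hx : x₀ ∈ U)
    {W₀ : Set X} (hW₀ : W₀ ∈ 𝓝 x₀) :
    ∃ R : ℝ, 0 < R ∧ ball (chartAt E x₀ x₀) R ⊆ (chartAt E x₀).target ∧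
      (∀ z ∈ ball (chartAt E x₀ x₀) R, (chartAt E x₀).symm z ∈ W₀ ∩ U) ∧
      (∀ z ∈ ball (chartAt E x₀ x₀) R,
        G ((chartAt E x₀).symm z) ∈ (chartAt E (G x₀)).source) ∧
      (∀ᶠ m in l, ∀ z ∈ ball (chartAt E x₀ x₀) R,
        F m ((chartAt E x₀).symm z) ∈ (chartAt E (G x₀)).source) ∧
      (∀ᶠ m in l, DifferentiableOn ℂ (rd (chartAt E x₀) (chartAt E (G x₀)) (F m))
        (ball (chartAt E x₀ x₀) R)) ∧
      DifferentiableOn ℂ (rd (chartAt E x₀) (chartAt E (G x₀)) G) (ball (chartAt E x₀ x₀) R) ∧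
      TendstoUniformlyOn (fun m => rd (chartAt E x₀) (chartAt E (G x₀)) (F m))
        (rd (chartAt E x₀) (chartAt E (G x₀)) G) l (ball (chartAt E x₀ x₀) (R / 2)) := by
  have hc := mdifferentiable_chart (I := 𝓘(ℂ, E)) (H := E) x₀
  have hc' := mdifferentiable_chart (I := 𝓘(ℂ, E)) (H := E) (G x₀)
  have hs : x₀ ∈ (chartAt E x₀).source := mem_chart_source E x₀
  have hs' : G x₀ ∈ (chartAt E (G x₀)).source := mem_chart_source E (G x₀)
  revert hc hc' hs hs'
  generalize chartAt E x₀ = c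
  generalize chartAt E (G x₀) = c'
  intro hc hc' hs hs'
  have : ProperSpace E := FiniteDimensional.proper ℂ E
  have ht' : c'.target ∈ 𝓝 (c' (G x₀)) := c'.open_target.mem_nhds (c'.map_source hs')
  obtain ⟨r, hr, hr'⟩ := Metric.nhds_basis_closedBall.mem_iff.mp ht'
  set O : Set X := c'.source ∩ c' ⁻¹' ball (c' (G x₀)) r with hO
  have hOn : O ∈ 𝓝 (G x₀) := by
    refine inter_mem (c'.open_source.mem_nhds hs') ?_
    exact (c'.continuousAt hs').preimage_mem_nhds (ball_mem_nhds _ hr)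
  obtain ⟨W, hW, hWm⟩ := hG x₀ hx O hOn
  have hcs : ContinuousAt c.symm (c x₀) := c.continuousAt_symm (c.map_source hs)
  have hcx : c.symm (c x₀) = x₀ := c.left_inv hs
  have hWU : W ∩ (W₀ ∩ U) ∈ 𝓝 (c.symm (c x₀)) := by
    rw [hcx]; exact inter_mem hW (inter_mem hW₀ (hU.mem_nhds hx))
  have hn : c.target ∩ c.symm ⁻¹' (W ∩ (W₀ ∩ U)) ∈ 𝓝 (c x₀) :=
    inter_mem (c.open_target.mem_nhds (c.map_source hs)) (hcs.preimage_mem_nhds hWU)
  obtain ⟨R, hR, hR'⟩ := Metric.mem_nhds_iff.mp hn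
  have hb1 : ball (c x₀) R ⊆ c.target := fun z hz => (hR' hz).1
  have hb2 : ∀ z ∈ ball (c x₀) R, c.symm z ∈ W := fun z hz => (hR' hz).2.1
  have hb3 : ∀ z ∈ ball (c x₀) R, c.symm z ∈ W₀ ∩ U := fun z hz => (hR' hz).2.2
  have hFs : ∀ᶠ m in l, ∀ z ∈ ball (c x₀) R, F m (c.symm z) ∈ O := by
    filter_upwards [hWm] with m hm z hz
    exact hm (hb2 z hz)
  have htend : ∀ z ∈ ball (c x₀) R, Tendsto (fun m => F m (c.symm z)) l (𝓝 (G (c.symm z))) := by
    intro z hz
    rw [tendsto_def]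
    intro O' hO'
    obtain ⟨W', hW', hm⟩ := hG (c.symm z) (hb3 z hz).2 O' hO'
    filter_upwards [hm] with m hm
    exact hm (mem_of_mem_nhds hW')
  have hGs : ∀ z ∈ ball (c x₀) R, G (c.symm z) ∈ c'.source := by
    intro z hz
    have hK : IsCompact (c'.symm '' closedBall (c' (G x₀)) r) :=
      (isCompact_closedBall _ _).image_of_continuousOn (c'.continuousOn_symm.mono hr')
    have hmem : G (c.symm z) ∈ c'.symm '' closedBall (c' (G x₀)) r := by
      refine hK.isClosed.mem_of_tendsto (htend z hz) ?_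
      filter_upwards [hFs] with m hm
      have := hm z hz
      exact ⟨c' (F m (c.symm z)), ball_subset_closedBall this.2, c'.left_inv this.1⟩
    obtain ⟨w, hw, hw'⟩ := hmem
    rw [← hw']
    exact c'.map_target (hr' hw)
  have hFd : ∀ᶠ m in l, DifferentiableOn ℂ (rd c c' (F m)) (ball (c x₀) R) := by
    filter_upwards [hFs, hF] with m hm hm' z hz
    refine (rd_diff hc hc' (hb1 hz) ?_ (hm z hz).1).differentiableWithinAt
    exact (hm' _ (hb3 z hz).2).mdifferentiableAt (hU.mem_nhds (hb3 z hz).2)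
  have hlim := hE E E ℕ l (fun m => rd c c' (F m)) (rd c c' G) (c x₀) R (‖c' (G x₀)‖ + r) hR
    (by
      filter_upwards [hFd, hFs] with m h1 h2
      refine ⟨h1, fun z hz => ?_⟩
      have h3 : ‖c' (F m (c.symm z)) - c' (G x₀)‖ < r := by
        have := (h2 z hz).2
        rwa [mem_preimage, mem_ball, dist_eq_norm] at this
      show ‖c' (F m (c.symm z))‖ ≤ _
      have h4 := norm_add_le (c' (G x₀)) (c' (F m (c.symm z)) - c' (G x₀))
      rw [add_sub_cancel] at h4
      linarith)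
    (by
      intro z hz
      exact ((c'.continuousAt (hGs z hz)).tendsto).comp (htend z hz))
  exact ⟨R, hR, hb1, hb3, hGs, by filter_upwards [hFs] with m hm z hz using (hm z hz).1, hFd,
    hlim.1, hlim.2⟩

theorem mlim (hE : S_ELIM.{u, u}) : S_MLIM.{u, v} := by
  intro E _ _ _ X _ _ _ _ l _ U F G hU hF hG x₀ hx
  obtain ⟨R, hR, hb1, hb3, hGs, -, -, hg, -⟩ := setup hE hU hF hG hx univ_mem
  have hc := mdifferentiable_chart (I := 𝓘(ℂ, E)) (H := E) x₀
  have hc' := mdifferentiable_chart (I := 𝓘(ℂ, E)) (H := E) (G x₀)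
  have hs : x₀ ∈ (chartAt E x₀).source := mem_chart_source E x₀
  revert hc hc' hs hb1 hb3 hGs hg
  generalize chartAt E x₀ = c
  generalize chartAt E (G x₀) = c'
  intro hb1 hb3 hGs hg hc hc' hs
  apply MDifferentiableAt.mdifferentiableWithinAt
  have hgx : MDifferentiableAt 𝓘(ℂ, E) 𝓘(ℂ, E) (rd c c' G) (c x₀) :=
    mdifferentiableAt_iff_differentiableAt.mpr
      ((hg (c x₀) (mem_ball_self hR)).differentiableAt (ball_mem_nhds _ hR))
  have hcx : c.symm (c x₀) = x₀ := c.left_inv hs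
  have hval : rd c c' G (c x₀) ∈ c'.target := by
    unfold rd
    exact c'.map_source (hGs _ (mem_ball_self hR))
  have hcomp : MDifferentiableAt 𝓘(ℂ, E) 𝓘(ℂ, E) (c'.symm ∘ rd c c' G ∘ c) x₀ :=
    (hc'.mdifferentiableAt_symm hval).comp x₀ (hgx.comp x₀ (hc.mdifferentiableAt hs))
  refine hcomp.congr_of_eventuallyEq ?_
  have hn : c.source ∩ c ⁻¹' ball (c x₀) R ∈ 𝓝 x₀ :=
    inter_mem (c.open_source.mem_nhds hs)
      ((c.continuousAt hs).preimage_mem_nhds (ball_mem_nhds _ hR))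
  filter_upwards [hn] with x hx
  show G x = c'.symm (c' (G (c.symm (c x))))
  have h1 := hGs (c x) hx.2
  rw [c'.left_inv h1, c.left_inv hx.1]

theorem mni (hE : S_ELIM.{u, u}) (hN : S_ENI.{u}) : S_MNI.{u, v} := by
  intro E _ _ _ X _ _ _ _ l _ U F G hU hF hG y hy hinv W hW
  obtain ⟨R, hR, hb1, hb3, hGs, hFs, hFd, hg, hu⟩ := setup hE hU hF hG hy hW
  have hc := mdifferentiable_chart (I := 𝓘(ℂ, E)) (H := E) y
  have hc' := mdifferentiable_chart (I := 𝓘(ℂ, E)) (H := E) (G y)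
  have hs : y ∈ (chartAt E y).source := mem_chart_source E y
  have hs' : G y ∈ (chartAt E (G y)).source := mem_chart_source E (G y)
  revert hc hc' hs hs' hb1 hb3 hGs hFs hFd hg hu
  generalize chartAt E y = c
  generalize chartAt E (G y) = c'
  intro hb1 hb3 hGs hFs hFd hg hu hc hc' hs hs'
  have hcy : c.symm (c y) = y := c.left_inv hs
  have hcomplete : CompleteSpace E := FiniteDimensional.complete ℂ E
  -- the derivative of the limit
  have hgd : DifferentiableAt ℂ (rd c c' G) (c y) :=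
    (hg (c y) (mem_ball_self hR)).differentiableAt (ball_mem_nhds _ hR)
  have hbij : Function.Bijective (fderiv ℂ (rd c c' G) (c y)) := by
    rw [rd_bij hc hc' (c.map_source hs) (by rw [hcy]; exact hinv.1) (by rw [hcy]; exact hs'), hcy]
    exact hinv.2
  let A : E ≃L[ℂ] E := ContinuousLinearEquiv.ofBijective (fderiv ℂ (rd c c' G) (c y))
    (LinearMap.ker_eq_bot.mpr hbij.1) (LinearMap.range_eq_top.mpr hbij.2)
  have hA : (A : E →L[ℂ] E) = fderiv ℂ (rd c c' G) (c y) :=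
    ContinuousLinearEquiv.coe_ofBijective _ _ _
  have hhas : HasFDerivAt (rd c c' G) (A : E →L[ℂ] E) (c y) := by
    rw [hA]; exact hgd.hasFDerivAt
  obtain ⟨ε, hε, hev⟩ := hN E ℕ l (fun m => rd c c' (F m)) (rd c c' G) (c y) (R / 2) A
    (by positivity)
    (by
      filter_upwards [hFd] with m hm
      exact hm.mono (ball_subset_ball (by linarith))) hu hhas (R / 2) (by positivity)
  have hval : rd c c' G (c y) = c' (G y) := by
    unfold rd; rw [hcy]
  refine ⟨c'.source ∩ c' ⁻¹' ball (rd c c' G (c y)) ε, ?_, ?_⟩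
  · refine inter_mem (c'.open_source.mem_nhds hs') ?_
    rw [hval]
    exact (c'.continuousAt hs').preimage_mem_nhds (ball_mem_nhds _ hε)
  · filter_upwards [hev, hFs, hF] with m h1 h2 h3 o ho
    obtain ⟨z, -, hz, hz1, hz2⟩ := h1 (c' o) ho.2
    have hzR : z ∈ ball (c y) R := ball_subset_ball (by linarith) hz
    have hmd : MDifferentiableAt 𝓘(ℂ, E) 𝓘(ℂ, E) (F m) (c.symm z) :=
      (h3 _ (hb3 z hzR).2).mdifferentiableAt (hU.mem_nhds (hb3 z hzR).2)
    refine ⟨c.symm z, (hb3 z hzR).1, ?_, hmd, ?_⟩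
    · exact chart_inj c' (h2 z hzR) ho.1 hz1
    · exact (rd_bij hc hc' (hb1 hzR) hmd (h2 z hzR)).mp hz2

end Pool.Agent.Y467.NT
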