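import Pool.Agent.Y467.NT.Ch

/-!
# Project NT: `S_MID` and `S_MDET`
-/

set_option autoImplicit false

open Set Filter Topology Metric
open scoped Manifold

namespace Pool.Agent.Y467.NT

open Pool.Agent.H559.NT

universe u v w

/-- the common topological part -/
theorem ball_setup {E : Type u} [NormedAddCommGroup E] [NormedSpace ℂ E]
    {X : Type v} [TopologicalSpace X] (c : OpenPartialHomeomorph X E) {x₀ : X}
    (hs : x₀ ∈ c.source) {N : Set X} (hN : N ∈ 𝓝 x₀) {A : Set X} (hA : IsOpen A)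
    (hxA : x₀ ∈ closure A) :
    ∃ R : ℝ, 0 < R ∧ ball (c x₀) R ⊆ c.target ∧ (∀ z ∈ ball (c x₀) R, c.symm z ∈ N) ∧
      c.source ∩ c ⁻¹' ball (c x₀) R ∈ 𝓝 x₀ ∧
      ∃ O' : Set E, IsOpen O' ∧ O'.Nonempty ∧ O' ⊆ ball (c x₀) R ∧ ∀ z ∈ O', c.symm z ∈ A := by
  have hcs : ContinuousAt c.symm (c x₀) := c.continuousAt_symm (c.map_source hs)
  have hcx : c.symm (c x₀) = x₀ := c.left_inv hs
  have hn : c.target ∩ c.symm ⁻¹' N ∈ 𝓝 (c x₀) :=
    inter_mem (c.open_target.mem_nhds (c.map_source hs))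
      (hcs.preimage_mem_nhds (by rw [hcx]; exact hN))
  obtain ⟨R, hR, hR'⟩ := Metric.mem_nhds_iff.mp hn
  have hM : c.source ∩ c ⁻¹' ball (c x₀) R ∈ 𝓝 x₀ :=
    inter_mem (c.open_source.mem_nhds hs)
      ((c.continuousAt hs).preimage_mem_nhds (ball_mem_nhds _ hR))
  refine ⟨R, hR, fun z hz => (hR' hz).1, fun z hz => (hR' hz).2, hM,
    ball (c x₀) R ∩ (c.target ∩ c.symm ⁻¹' A), ?_, ?_, inter_subset_left, fun z hz => hz.2.2⟩
  · exact isOpen_ball.inter (c.isOpen_inter_preimage_symm hA)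
  · obtain ⟨x, hx1, hx2⟩ := mem_closure_iff_nhds.mp hxA _ hM
    refine ⟨c x, hx1.2, c.map_source hx1.1, ?_⟩
    show c.symm (c x) ∈ A
    rw [c.left_inv hx1.1]
    exact hx2

theorem mid (hE : S_EID.{u, u}) : S_MID.{u, v} := by
  intro E _ _ _ X _ _ _ _ W O F G hW hWc hO hOn hOW hF hG hFG
  set A : Set X := interior {x | F x = G x} with hA
  have hOA : O ⊆ A := interior_maximal (fun x hx => hFG x hx) hO
  have hsub : W ⊆ A := by
    refine hWc.subset_of_closure_inter_subset isOpen_interior ?_ ?_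
    · obtain ⟨o, ho⟩ := hOn
      exact ⟨o, hOW ho, hOA ho⟩
    · rintro x₀ ⟨hx, hxW⟩
      have hFd : MDifferentiableAt 𝓘(ℂ, E) 𝓘(ℂ, E) F x₀ :=
        (hF _ hxW).mdifferentiableAt (hW.mem_nhds hxW)
      have hGd : MDifferentiableAt 𝓘(ℂ, E) 𝓘(ℂ, E) G x₀ :=
        (hG _ hxW).mdifferentiableAt (hW.mem_nhds hxW)
      have hfr : ∃ᶠ x in 𝓝 x₀, F x = G x := by
        refine (mem_closure_iff_frequently.mp hx).mono ?_
        intro x hx'
        exact interior_subset (s := {x | F x = G x}) hx'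
      have heq : F x₀ = G x₀ :=
        tendsto_nhds_unique_of_frequently_eq hFd.continuousAt hGd.continuousAt hfr
      have hc := mdifferentiable_chart (I := 𝓘(ℂ, E)) (H := E) x₀
      have hc' := mdifferentiable_chart (I := 𝓘(ℂ, E)) (H := E) (F x₀)
      have hs : x₀ ∈ (chartAt E x₀).source := mem_chart_source E x₀
      have hs' : F x₀ ∈ (chartAt E (F x₀)).source := mem_chart_source E (F x₀)
      revert hc hc' hs hs'
      generalize chartAt E x₀ = c
      generalize chartAt E (F x₀) = c'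
      intro hc hc' hs hs'
      have hN : W ∩ (F ⁻¹' c'.source ∩ G ⁻¹' c'.source) ∈ 𝓝 x₀ := by
        refine inter_mem (hW.mem_nhds hxW) (inter_mem ?_ ?_)
        · exact hFd.continuousAt.preimage_mem_nhds (c'.open_source.mem_nhds hs')
        · exact hGd.continuousAt.preimage_mem_nhds (c'.open_source.mem_nhds (heq ▸ hs'))
      obtain ⟨R, hR, hb1, hb2, hM, O', hO'o, hO'n, hO'b, hO'A⟩ :=
        ball_setup c hs hN (isOpen_interior (s := {x | F x = G x})) hx
      have hdiff : DifferentiableOn ℂ (fun z => rd c c' F z - rd c c' G z) (ball (c x₀) R) := by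
        intro z hz
        obtain ⟨h1, h2, h3⟩ := hb2 z hz
        have hF' : MDifferentiableAt 𝓘(ℂ, E) 𝓘(ℂ, E) F (c.symm z) :=
          (hF _ h1).mdifferentiableAt (hW.mem_nhds h1)
        have hG' : MDifferentiableAt 𝓘(ℂ, E) 𝓘(ℂ, E) G (c.symm z) :=
          (hG _ h1).mdifferentiableAt (hW.mem_nhds h1)
        exact ((rd_diff hc hc' (hb1 hz) hF' h2).sub
          (rd_diff hc hc' (hb1 hz) hG' h3)).differentiableWithinAt
      have hcomplete : CompleteSpace E := FiniteDimensional.complete ℂ E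
      have hzero := hE E E _ (c x₀) R hdiff O' hO'o hO'n hO'b (by
        intro z hz
        have h1 : F (c.symm z) = G (c.symm z) :=
          interior_subset (s := {x | F x = G x}) (hO'A z hz)
        show c' (F (c.symm z)) - c' (G (c.symm z)) = 0
        rw [h1, sub_self])
      rw [hA, mem_interior_iff_mem_nhds]
      filter_upwards [hM] with x hx'
      have h1 := hzero (c x) hx'.2
      have h2 := hb2 (c x) hx'.2
      have h1' : c' (F (c.symm (c x))) - c' (G (c.symm (c x))) = 0 := h1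
      have h3 := c'.injOn h2.2.1 h2.2.2 (sub_eq_zero.mp h1')
      rw [c.left_inv hx'.1] at h3
      exact h3
  intro x hx
  exact interior_subset (s := {x | F x = G x}) (hsub hx)

theorem mdet (hE : S_EDET.{u}) : S_MDET.{u, v} := by
  intro E _ _ _ X _ _ _ _ W O F hW hWc hF hy hO hOn hOW
  obtain ⟨y, hyW, hy⟩ := hy
  by_contra hcon
  push Not at hcon
  set A : Set X := interior {x | ¬ Inv E F x} with hA
  have hOA : O ⊆ A := interior_maximal (fun x hx => hcon x hx) hO
  have hsub : W ⊆ A := by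
    refine hWc.subset_of_closure_inter_subset isOpen_interior ?_ ?_
    · obtain ⟨o, ho⟩ := hOn
      exact ⟨o, hOW ho, hOA ho⟩
    · rintro x₀ ⟨hx, hxW⟩
      have hFd : MDifferentiableAt 𝓘(ℂ, E) 𝓘(ℂ, E) F x₀ :=
        (hF _ hxW).mdifferentiableAt (hW.mem_nhds hxW)
      have hc := mdifferentiable_chart (I := 𝓘(ℂ, E)) (H := E) x₀
      have hc' := mdifferentiable_chart (I := 𝓘(ℂ, E)) (H := E) (F x₀)
      have hs : x₀ ∈ (chartAt E x₀).source := mem_chart_source E x₀
      have hs' : F x₀ ∈ (chartAt E (F x₀)).source := mem_chart_source E (F x₀)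
      revert hc hc' hs hs'
      generalize chartAt E x₀ = c
      generalize chartAt E (F x₀) = c'
      intro hc hc' hs hs'
      have hN : W ∩ (F ⁻¹' c'.source) ∈ 𝓝 x₀ := by
        refine inter_mem (hW.mem_nhds hxW) ?_
        exact hFd.continuousAt.preimage_mem_nhds (c'.open_source.mem_nhds hs')
      obtain ⟨R, hR, hb1, hb2, hM, O', hO'o, hO'n, hO'b, hO'A⟩ :=
        ball_setup c hs hN (isOpen_interior (s := {x | ¬ Inv E F x})) hx
      have hmd : ∀ z ∈ ball (c x₀) R, MDifferentiableAt 𝓘(ℂ, E) 𝓘(ℂ, E) F (c.symm z) := by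
        intro z hz
        exact (hF _ (hb2 z hz).1).mdifferentiableAt (hW.mem_nhds (hb2 z hz).1)
      have hdiff : DifferentiableOn ℂ (rd c c' F) (ball (c x₀) R) := by
        intro z hz
        exact (rd_diff hc hc' (hb1 hz) (hmd z hz) (hb2 z hz).2).differentiableWithinAt
      have hiff : ∀ z ∈ ball (c x₀) R,
          (Inv E F (c.symm z) ↔ Function.Bijective (fderiv ℂ (rd c c' F) z)) := by
        intro z hz
        rw [rd_bij hc hc' (hb1 hz) (hmd z hz) (hb2 z hz).2]
        exact ⟨fun h => h.2, fun h => ⟨hmd z hz, h⟩⟩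
      have hzero := hE E (rd c c' F) (c x₀) R hdiff O' hO'o hO'n hO'b (by
        intro z hz h
        exact interior_subset (s := {x | ¬ Inv E F x}) (hO'A z hz) ((hiff z (hO'b hz)).mpr h))
      rw [hA, mem_interior_iff_mem_nhds]
      filter_upwards [hM] with x hx' h
      refine hzero (c x) hx'.2 ((hiff (c x) hx'.2).mp ?_)
      rw [c.left_inv hx'.1]
      exact h
  exact interior_subset (s := {x | ¬ Inv E F x}) (hsub hyW) hy

end Pool.Agent.Y467.NT
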