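import Pool.Agent.H559.NT.Stm

/-!
# Project NT: reading maps in charts
-/

set_option autoImplicit false

open Set Filter Topology Metric
open scoped Manifold

namespace Pool.Agent.Y467.NT

universe u v

section

variable {E : Type u} [NormedAddCommGroup E] [NormedSpace ℂ E]
  {X : Type v} [TopologicalSpace X] [ChartedSpace E X]

/-- the map `F` read in the charts `c`, `c'` -/
def rd (c c' : OpenPartialHomeomorph X E) (F : X → X) : E → E := fun z => c' (F (c.symm z))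

variable {c c' : OpenPartialHomeomorph X E}
  (hc : c.MDifferentiable 𝓘(ℂ, E) 𝓘(ℂ, E)) (hc' : c'.MDifferentiable 𝓘(ℂ, E) 𝓘(ℂ, E))

include hc hc'

theorem rd_mdiff {F : X → X} {z : E} (hz : z ∈ c.target)
    (hF : MDifferentiableAt 𝓘(ℂ, E) 𝓘(ℂ, E) F (c.symm z)) (hs : F (c.symm z) ∈ c'.source) :
    MDifferentiableAt 𝓘(ℂ, E) 𝓘(ℂ, E) (rd c c' F) z := by
  have h1 : MDifferentiableAt 𝓘(ℂ, E) 𝓘(ℂ, E) c.symm z := hc.mdifferentiableAt_symm hz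
  have h2 : MDifferentiableAt 𝓘(ℂ, E) 𝓘(ℂ, E) c' (F (c.symm z)) := hc'.mdifferentiableAt hs
  exact h2.comp z (hF.comp z h1)

theorem rd_diff {F : X → X} {z : E} (hz : z ∈ c.target)
    (hF : MDifferentiableAt 𝓘(ℂ, E) 𝓘(ℂ, E) F (c.symm z)) (hs : F (c.symm z) ∈ c'.source) :
    DifferentiableAt ℂ (rd c c' F) z :=
  mdifferentiableAt_iff_differentiableAt.mp (rd_mdiff hc hc' hz hF hs)

theorem rd_bij {F : X → X} {z : E} (hz : z ∈ c.target)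
    (hF : MDifferentiableAt 𝓘(ℂ, E) 𝓘(ℂ, E) F (c.symm z)) (hs : F (c.symm z) ∈ c'.source) :
    Function.Bijective (fderiv ℂ (rd c c' F) z) ↔
      Function.Bijective (mfderiv 𝓘(ℂ, E) 𝓘(ℂ, E) F (c.symm z)) := by
  have h1 : MDifferentiableAt 𝓘(ℂ, E) 𝓘(ℂ, E) c.symm z := hc.mdifferentiableAt_symm hz
  have h2 : MDifferentiableAt 𝓘(ℂ, E) 𝓘(ℂ, E) c' (F (c.symm z)) := hc'.mdifferentiableAt hs
  have b1 : Function.Bijective (mfderiv 𝓘(ℂ, E) 𝓘(ℂ, E) c.symm z) :=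
    hc.symm.mfderiv_bijective hz
  have b2 : Function.Bijective (mfderiv 𝓘(ℂ, E) 𝓘(ℂ, E) c' (F (c.symm z))) :=
    hc'.mfderiv_bijective hs
  have e1 : mfderiv 𝓘(ℂ, E) 𝓘(ℂ, E) (rd c c' F) z =
      (mfderiv 𝓘(ℂ, E) 𝓘(ℂ, E) c' (F (c.symm z))).comp
        ((mfderiv 𝓘(ℂ, E) 𝓘(ℂ, E) F (c.symm z)).comp (mfderiv 𝓘(ℂ, E) 𝓘(ℂ, E) c.symm z)) := by
    have := mfderiv_comp (I := 𝓘(ℂ, E)) (I' := 𝓘(ℂ, E)) (I'' := 𝓘(ℂ, E)) z
      (g := c') (f := F ∘ c.symm) h2 (hF.comp z h1)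
    have h3 := mfderiv_comp (I := 𝓘(ℂ, E)) (I' := 𝓘(ℂ, E)) (I'' := 𝓘(ℂ, E)) z
      (g := F) (f := c.symm) hF h1
    rw [h3] at this
    exact this
  rw [← mfderiv_eq_fderiv, e1]
  constructor
  · intro h
    have h' : Function.Bijective ((mfderiv 𝓘(ℂ, E) 𝓘(ℂ, E) c' (F (c.symm z))) ∘
        ((mfderiv 𝓘(ℂ, E) 𝓘(ℂ, E) F (c.symm z)) ∘ (mfderiv 𝓘(ℂ, E) 𝓘(ℂ, E) c.symm z))) := h
    rw [Function.Bijective.of_comp_iff' b2, Function.Bijective.of_comp_iff _ b1] at h'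
    exact h'
  · intro h
    show Function.Bijective ((mfderiv 𝓘(ℂ, E) 𝓘(ℂ, E) c' (F (c.symm z))) ∘
        ((mfderiv 𝓘(ℂ, E) 𝓘(ℂ, E) F (c.symm z)) ∘ (mfderiv 𝓘(ℂ, E) 𝓘(ℂ, E) c.symm z)))
    exact b2.comp (h.comp b1)

end

end Pool.Agent.Y467.NT
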